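import Pool.Agent.Q61.ND.Stm

set_option autoImplicit false

/-!
# Project ND, job APR: the weighted estimate in the strip
-/

open MeasureTheory Set Filter Topology Real

namespace Pool.Agent.Q164.ND.APR

open Pool.Agent.Q61.ND
open Pool.Agent.Q61.AD (P dx dy lap)

theorem dx_eq {f : P → ℝ} (hf : Differentiable ℝ f) (p : P) : dx f p = fderiv ℝ f p (1, 0) := by
  have h1 : HasDerivAt (fun s : ℝ => ((s, p.2) : P)) (1, 0) p.1 :=
    (hasDerivAt_id p.1).prodMk (hasDerivAt_const p.1 p.2)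
  have h2 : HasFDerivAt f (fderiv ℝ f p) ((fun s : ℝ => ((s, p.2) : P)) p.1) := (hf p).hasFDerivAt
  exact (h2.comp_hasDerivAt p.1 h1).deriv

theorem dy_eq {f : P → ℝ} (hf : Differentiable ℝ f) (p : P) : dy f p = fderiv ℝ f p (0, 1) := by
  have h1 : HasDerivAt (fun s : ℝ => ((p.1, s) : P)) (0, 1) p.2 :=
    (hasDerivAt_const p.2 p.1).prodMk (hasDerivAt_id p.2)
  have h2 : HasFDerivAt f (fderiv ℝ f p) ((fun s : ℝ => ((p.1, s) : P)) p.2) := (hf p).hasFDerivAt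
  exact (h2.comp_hasDerivAt p.2 h1).deriv

theorem sm_dx {f : P → ℝ} (hf : ContDiff ℝ (⊤ : ℕ∞) f) : ContDiff ℝ (⊤ : ℕ∞) (dx f) := by
  have h : dx f = fun p => fderiv ℝ f p (1, 0) := funext fun p => dx_eq (hf.differentiable (by simp)) p
  rw [h]
  exact (hf.fderiv_right (m := ((⊤ : ℕ∞) : WithTop ℕ∞)) (by simp)).clm_apply contDiff_const

theorem sm_dy {f : P → ℝ} (hf : ContDiff ℝ (⊤ : ℕ∞) f) : ContDiff ℝ (⊤ : ℕ∞) (dy f) := by
  have h : dy f = fun p => fderiv ℝ f p (0, 1) := funext fun p => dy_eq (hf.differentiable (by simp)) p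
  rw [h]
  exact (hf.fderiv_right (m := ((⊤ : ℕ∞) : WithTop ℕ∞)) (by simp)).clm_apply contDiff_const

/-- the support in `s` is inherited by the derivatives -/
theorem z_dx {f : P → ℝ} {a b : ℝ} (h : ∀ s θ : ℝ, s ∉ Icc a b → f (s, θ) = 0) :
    ∀ s θ : ℝ, s ∉ Icc a b → dx f (s, θ) = 0 := by
  intro s θ hs
  have h1 : (fun x : ℝ => f (x, θ)) =ᶠ[𝓝 s] fun _ => 0 := by
    filter_upwards [isClosed_Icc.isOpen_compl.mem_nhds hs] with x hx
    exact h x θ hx
  change deriv (fun x : ℝ => f (x, θ)) s = 0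
  rw [h1.deriv_eq, deriv_const]

theorem z_dy {f : P → ℝ} {a b : ℝ} (h : ∀ s θ : ℝ, s ∉ Icc a b → f (s, θ) = 0) :
    ∀ s θ : ℝ, s ∉ Icc a b → dy f (s, θ) = 0 := by
  intro s θ hs
  have h1 : (fun x : ℝ => f (s, x)) = fun _ => 0 := funext fun x => h s x hs
  change deriv (fun x : ℝ => f (s, x)) θ = 0
  rw [h1, deriv_const]

theorem int_strip {F : P → ℝ} {a b : ℝ} (hF : ContinuousOn F (Icc a b ×ˢ Icc (-π) π))
    (h0 : ∀ s θ : ℝ, s ∉ Icc a b → F (s, θ) = 0) : IntegrableOn F (Sp 21) := by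
  have h1 : IntegrableOn F (Icc a b ×ˢ Icc (-π) π) :=
    hF.integrableOn_compact (isCompact_Icc.prod isCompact_Icc)
  refine h1.of_forall_sdiff_eq_zero (measurableSet_Ioi.prod measurableSet_Ioo) ?_
  rintro ⟨s, θ⟩ ⟨⟨-, h2⟩, h3⟩
  refine h0 s θ fun h4 => h3 ⟨h4, ?_⟩
  exact Ioo_subset_Icc_self h2

theorem fub {F : P → ℝ} (hF : IntegrableOn F (Sp 21))
    (h : ∀ s : ℝ, 21 < s → 0 ≤ ∫ t in (-π)..π, F (s, t)) : 0 ≤ ∫ p in Sp 21, F p := by
  have hF' : IntegrableOn F (Ioi (21 : ℝ) ×ˢ Ioo (-π) π)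
      ((volume : Measure ℝ).prod (volume : Measure ℝ)) := hF
  have e1 : ∫ p in Sp 21, F p = ∫ s in Ioi (21 : ℝ), ∫ t in Ioo (-π) π, F (s, t) :=
    setIntegral_prod F hF'
  rw [e1]
  refine setIntegral_nonneg measurableSet_Ioi fun s hs => ?_
  have h1 := h s hs
  rw [intervalIntegral.integral_of_le (by linarith [pi_pos]), integral_Ioc_eq_integral_Ioo] at h1
  exact h1

theorem coef {s : ℝ} (hs : 21 < s) :
    0 ≤ -(3 / 2 * (1 / s * (1 - 1 / s)) + 9 / 4 * (1 / s * (1 - 1 / s)) ^ 2) +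
      (2 / s - 3 / s ^ 2 - 1 / 4 / s) := by
  have hs0 : 0 < s := by linarith
  obtain ⟨x, hx⟩ : ∃ x : ℝ, x = 1 / s := ⟨_, rfl⟩
  have hx0 : 0 < x := by
    rw [hx]
    positivity
  have hx1 : x < 1 / 21 := by
    rw [hx]
    exact one_div_lt_one_div_of_lt (by norm_num) hs
  have e1 : 2 / s - 3 / s ^ 2 - 1 / 4 / s = 2 * x - 3 * x ^ 2 - 1 / 4 * x := by
    rw [hx]
    field_simp
  rw [e1, ← hx]
  have e2 : (x * (1 - x)) ^ 2 ≤ x ^ 2 := by
    have : 0 ≤ x * (1 - x) := mul_nonneg hx0.le (by linarith)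
    nlinarith
  nlinarith

theorem main (h : S_cir) (h1 : S_ene) : S_apr := by
  intro Φ hΦ
  obtain ⟨a, b, ha, hab⟩ := hΦ.supp
  have hz : ∀ s θ : ℝ, s ∉ Icc a b → Φ (s, θ) = 0 := by
    intro s θ hs
    by_contra hne
    exact hs (hab s θ hne)
  have cΦ : Continuous Φ := hΦ.smooth.continuous
  have cx : Continuous (dx Φ) := (sm_dx hΦ.smooth).continuous
  have cy : Continuous (dy Φ) := (sm_dy hΦ.smooth).continuous
  have cxx : Continuous (dx (dx Φ)) := (sm_dx (sm_dx hΦ.smooth)).continuous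
  have cyy : Continuous (dy (dy Φ)) := (sm_dy (sm_dy hΦ.smooth)).continuous
  have pos : ∀ p ∈ Icc a b ×ˢ Icc (-π) π, p.1 ≠ 0 := by
    intro p hp
    have := hp.1.1
    intro h0
    linarith
  have cG : ContinuousOn (G0 Φ) (Icc a b ×ˢ Icc (-π) π) := by
    unfold G0 lap
    refine ContinuousOn.sub (ContinuousOn.sub (by fun_prop) ?_) ?_
    · refine ContinuousOn.mul (ContinuousOn.mul ?_ (by fun_prop)) (by fun_prop)
      exact ContinuousOn.div (by fun_prop) (by fun_prop) pos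
    · refine ContinuousOn.mul (ContinuousOn.mul ?_ (by fun_prop)) (by fun_prop)
      exact ContinuousOn.div (by fun_prop) (by fun_prop) fun p hp => pow_ne_zero _ (pos p hp)
  have zG : ∀ s θ : ℝ, s ∉ Icc a b → G0 Φ (s, θ) = 0 := by
    intro s θ hs
    unfold G0 lap
    rw [z_dx (z_dx hz) s θ hs, z_dy (z_dy hz) s θ hs, z_dx hz s θ hs, z_dy hz s θ hs]
    ring
  -- the four integrands
  have iI : IntegrableOn (fun p : P => exp (2 * p.1) / p.1 ^ 3 * Φ p ^ 2) (Sp 21) := by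
    refine int_strip (a := a) (b := b) ?_ ?_
    · refine ContinuousOn.mul (ContinuousOn.div (by fun_prop) (by fun_prop)
        fun p hp => pow_ne_zero _ (pos p hp)) (by fun_prop)
    · intro s θ hs
      simp only [hz s θ hs]
      ring
  have iJ : IntegrableOn (fun p : P => exp (2 * p.1) / p.1 * G0 Φ p ^ 2) (Sp 21) := by
    refine int_strip (a := a) (b := b) ?_ ?_
    · exact ContinuousOn.mul (ContinuousOn.div (by fun_prop) (by fun_prop) pos) (cG.pow 2)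
    · intro s θ hs
      simp only [zG s θ hs]
      ring
  have iM : IntegrableOn (fun p : P => exp (2 * p.1) / p.1 ^ 2 * (G0 Φ p * Φ p)) (Sp 21) := by
    refine int_strip (a := a) (b := b) ?_ ?_
    · exact ContinuousOn.mul (ContinuousOn.div (by fun_prop) (by fun_prop)
        fun p hp => pow_ne_zero _ (pos p hp)) (cG.mul cΦ.continuousOn)
    · intro s θ hs
      simp only [zG s θ hs]
      ring
  have iA : IntegrableOn (fun p : P => exp (2 * p.1) / p.1 ^ 2 * (dy Φ p ^ 2 - Φ p ^ 2 -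
        3 * (1 / p.1 * (1 - 1 / p.1)) * cos (2 * p.2) * Φ p ^ 2 +
          (2 / p.1 - 3 / p.1 ^ 2) * Φ p ^ 2)) (Sp 21) := by
    refine int_strip (a := a) (b := b) ?_ ?_
    · have d1 : ContinuousOn (fun p : P => 1 / p.1) (Icc a b ×ˢ Icc (-π) π) :=
        ContinuousOn.div (by fun_prop) (by fun_prop) pos
      have d2 : ContinuousOn (fun p : P => 2 / p.1) (Icc a b ×ˢ Icc (-π) π) :=
        ContinuousOn.div (by fun_prop) (by fun_prop) pos
      have d3 : ContinuousOn (fun p : P => 3 / p.1 ^ 2) (Icc a b ×ˢ Icc (-π) π) :=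
        ContinuousOn.div (by fun_prop) (by fun_prop) fun p hp => pow_ne_zero _ (pos p hp)
      have d4 : ContinuousOn (fun p : P => exp (2 * p.1) / p.1 ^ 2) (Icc a b ×ˢ Icc (-π) π) :=
        ContinuousOn.div (by fun_prop) (by fun_prop) fun p hp => pow_ne_zero _ (pos p hp)
      fun_prop
    · intro s θ hs
      simp only [hz s θ hs, z_dy hz s θ hs]
      ring
  have E := h1 Φ hΦ
  set A := ∫ p in Sp 21, exp (2 * p.1) / p.1 ^ 2 * (dy Φ p ^ 2 - Φ p ^ 2 -
        3 * (1 / p.1 * (1 - 1 / p.1)) * cos (2 * p.2) * Φ p ^ 2 +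
          (2 / p.1 - 3 / p.1 ^ 2) * Φ p ^ 2) with hA
  set I := ∫ p in Sp 21, exp (2 * p.1) / p.1 ^ 3 * Φ p ^ 2 with hI
  set J := ∫ p in Sp 21, exp (2 * p.1) / p.1 * G0 Φ p ^ 2 with hJ
  set M := ∫ p in Sp 21, exp (2 * p.1) / p.1 ^ 2 * (G0 Φ p * Φ p) with hM
  -- first step
  have s1 : 0 ≤ A - 1 / 4 * I := by
    rw [hA, hI, ← integral_const_mul, ← integral_sub iA (iI.const_mul _)]
    refine fub (iA.sub (iI.const_mul _)) fun s hs => ?_
    have hs0 : 0 < s := by linarith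
    have cS : ContDiff ℝ 1 (fun t : ℝ => Φ (s, t)) :=
      (hΦ.smooth.comp (contDiff_const.prodMk contDiff_id)).of_le (by simp)
    have x1 : (1 : ℝ) / s < 1 / 21 := one_div_lt_one_div_of_lt (by norm_num) hs
    have x0 : (0 : ℝ) < 1 / s := by positivity
    have C := h (fun t : ℝ => Φ (s, t)) cS (fun t => hΦ.anti s t) (1 / s * (1 - 1 / s))
      ⟨mul_nonneg x0.le (by linarith), by nlinarith⟩
    have c0 : Continuous (fun t : ℝ => Φ (s, t)) := cS.continuous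
    have c1 : Continuous (deriv (fun t : ℝ => Φ (s, t))) := cS.continuous_deriv le_rfl
    have e1 : ∀ t : ℝ, exp (2 * (s, t).1) / (s, t).1 ^ 2 * (dy Φ (s, t) ^ 2 - Φ (s, t) ^ 2 -
        3 * (1 / (s, t).1 * (1 - 1 / (s, t).1)) * cos (2 * (s, t).2) * Φ (s, t) ^ 2 +
          (2 / (s, t).1 - 3 / (s, t).1 ^ 2) * Φ (s, t) ^ 2) -
        1 / 4 * (exp (2 * (s, t).1) / (s, t).1 ^ 3 * Φ (s, t) ^ 2) =
        exp (2 * s) / s ^ 2 * ((deriv (fun t : ℝ => Φ (s, t)) t ^ 2 - Φ (s, t) ^ 2 -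
          3 * (1 / s * (1 - 1 / s)) * cos (2 * t) * Φ (s, t) ^ 2) +
            (2 / s - 3 / s ^ 2 - 1 / 4 / s) * Φ (s, t) ^ 2) := by
      intro t
      change exp (2 * s) / s ^ 2 * (deriv (fun t : ℝ => Φ (s, t)) t ^ 2 - Φ (s, t) ^ 2 -
        3 * (1 / s * (1 - 1 / s)) * cos (2 * t) * Φ (s, t) ^ 2 +
          (2 / s - 3 / s ^ 2) * Φ (s, t) ^ 2) - 1 / 4 * (exp (2 * s) / s ^ 3 * Φ (s, t) ^ 2) = _
      field_simp
      ring
    simp only [e1]
    rw [intervalIntegral.integral_const_mul]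
    refine mul_nonneg (by positivity) ?_
    rw [intervalIntegral.integral_add
      ((by fun_prop : Continuous fun t : ℝ => deriv (fun t : ℝ => Φ (s, t)) t ^ 2 - Φ (s, t) ^ 2 -
          3 * (1 / s * (1 - 1 / s)) * cos (2 * t) * Φ (s, t) ^ 2).intervalIntegrable _ _)
      ((by fun_prop : Continuous fun t : ℝ =>
        (2 / s - 3 / s ^ 2 - 1 / 4 / s) * Φ (s, t) ^ 2).intervalIntegrable _ _),
      intervalIntegral.integral_const_mul]
    have y0 : 0 ≤ ∫ t in (-π)..π, Φ (s, t) ^ 2 :=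
      intervalIntegral.integral_nonneg (by linarith [pi_pos]) fun t _ => sq_nonneg _
    have k := mul_nonneg (coef hs) y0
    linarith
  -- second step
  have s2 : -M ≤ 2 * J + 1 / 8 * I := by
    rw [hM, hJ, hI, ← integral_neg, ← integral_const_mul, ← integral_const_mul,
      ← integral_add (iJ.const_mul _) (iI.const_mul _)]
    refine setIntegral_mono_on iM.neg ((iJ.const_mul _).add (iI.const_mul _))
      (measurableSet_Ioi.prod measurableSet_Ioo) ?_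
    rintro ⟨s, t⟩ ⟨hs, -⟩
    have hs0 : 0 < s := lt_trans (by norm_num) (show (21 : ℝ) < s from hs)
    change -(exp (2 * s) / s ^ 2 * (G0 Φ (s, t) * Φ (s, t))) ≤
      2 * (exp (2 * s) / s * G0 Φ (s, t) ^ 2) + 1 / 8 * (exp (2 * s) / s ^ 3 * Φ (s, t) ^ 2)
    have e2 : 2 * (exp (2 * s) / s * G0 Φ (s, t) ^ 2) + 1 / 8 * (exp (2 * s) / s ^ 3 * Φ (s, t) ^ 2) +
        exp (2 * s) / s ^ 2 * (G0 Φ (s, t) * Φ (s, t)) =
        exp (2 * s) / (8 * s ^ 3) * (4 * s * G0 Φ (s, t) + Φ (s, t)) ^ 2 := by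
      field_simp
      ring
    have e3 : 0 ≤ exp (2 * s) / (8 * s ^ 3) * (4 * s * G0 Φ (s, t) + Φ (s, t)) ^ 2 := by
      positivity
    linarith
  linarith

end Pool.Agent.Q164.ND.APR

namespace Pool.Agent.Q164.ND

open Pool.Agent.Q61.ND

/-- **APR** -/
theorem apr (h : S_cir) (h1 : S_ene) : S_apr := APR.main h h1

end Pool.Agent.Q164.ND
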