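import Pool.Agent.Q61.ND.Stm

set_option autoImplicit false

/-!
# Project ND, job BND: the size of the residual
-/

open MeasureTheory Set Filter Topology Real

namespace Pool.Agent.Q164.ND.BND

open Pool.Agent.Q61.ND
open Pool.Agent.Q61.AD (P dx dy lap)

/-- the derivative in `s` of the building block -/
theorem hd (α β c d : ℝ) {s : ℝ} (hs : 0 < s) :
    HasDerivAt (fun s : ℝ => exp s * (s ^ α * c + s ^ β * d))
      (exp s * (s ^ α * c + s ^ β * d + (s ^ (α - 1) * (α * c) + s ^ (β - 1) * (β * d)))) s := by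
  have h1 : HasDerivAt (fun s : ℝ => s ^ α) (α * s ^ (α - 1)) s :=
    Real.hasDerivAt_rpow_const (Or.inl hs.ne')
  have h2 : HasDerivAt (fun s : ℝ => s ^ β) (β * s ^ (β - 1)) s :=
    Real.hasDerivAt_rpow_const (Or.inl hs.ne')
  have h := (Real.hasDerivAt_exp s).mul ((h1.mul_const c).add (h2.mul_const d))
  refine h.congr_deriv ?_
  simp only [Pi.add_apply]
  ring

theorem dxU0 {s : ℝ} (hs : 0 < s) (θ : ℝ) : dx U0 (s, θ) =
    exp s * (s ^ (-(3 / 4) : ℝ) * cos θ + s ^ (-(7 / 4) : ℝ) * (3 / 16 * cos (3 * θ)) +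
      (s ^ (-(3 / 4) - 1 : ℝ) * (-(3 / 4) * cos θ) +
        s ^ (-(7 / 4) - 1 : ℝ) * (-(7 / 4) * (3 / 16 * cos (3 * θ))))) := by
  have h := hd (-(3 / 4)) (-(7 / 4)) (cos θ) (3 / 16 * cos (3 * θ)) hs
  have e : (fun x : ℝ => U0 (x, θ)) =
      fun s : ℝ => exp s * (s ^ (-(3 / 4) : ℝ) * cos θ + s ^ (-(7 / 4) : ℝ) * (3 / 16 * cos (3 * θ))) := by
    funext x
    unfold U0
    ring
  change deriv (fun x : ℝ => U0 (x, θ)) s = _
  rw [e]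
  exact h.deriv

theorem dxdxU0 {s : ℝ} (hs : 0 < s) (θ : ℝ) : dx (dx U0) (s, θ) =
    exp s * (s ^ (-(3 / 4) : ℝ) * cos θ + s ^ (-(7 / 4) : ℝ) * (3 / 16 * cos (3 * θ)) +
      2 * (s ^ (-(3 / 4) - 1 : ℝ) * (-(3 / 4) * cos θ) +
        s ^ (-(7 / 4) - 1 : ℝ) * (-(7 / 4) * (3 / 16 * cos (3 * θ)))) +
      (s ^ (-(3 / 4) - 1 - 1 : ℝ) * ((-(3 / 4) - 1) * (-(3 / 4) * cos θ)) +
        s ^ (-(7 / 4) - 1 - 1 : ℝ) * ((-(7 / 4) - 1) * (-(7 / 4) * (3 / 16 * cos (3 * θ)))))) := by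
  have h1 := hd (-(3 / 4)) (-(7 / 4)) (cos θ) (3 / 16 * cos (3 * θ)) hs
  have h2 := hd (-(3 / 4) - 1) (-(7 / 4) - 1) (-(3 / 4) * cos θ) (-(7 / 4) * (3 / 16 * cos (3 * θ))) hs
  have h := h1.add h2
  have e : (fun x : ℝ => dx U0 (x, θ)) =ᶠ[𝓝 s]
      ((fun s : ℝ => exp s * (s ^ (-(3 / 4) : ℝ) * cos θ + s ^ (-(7 / 4) : ℝ) * (3 / 16 * cos (3 * θ)))) +
        fun s : ℝ => exp s * (s ^ (-(3 / 4) - 1 : ℝ) * (-(3 / 4) * cos θ) +
          s ^ (-(7 / 4) - 1 : ℝ) * (-(7 / 4) * (3 / 16 * cos (3 * θ))))) := by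
    filter_upwards [isOpen_Ioi.mem_nhds (show s ∈ Ioi (0 : ℝ) from hs)] with x hx
    rw [dxU0 hx]
    simp only [Pi.add_apply]
    ring
  change deriv (fun x : ℝ => dx U0 (x, θ)) s = _
  rw [e.deriv_eq, h.deriv]
  ring

theorem hdy (s θ : ℝ) : HasDerivAt (fun x : ℝ => U0 (s, x))
    (exp s * (-(s ^ (-(3 / 4) : ℝ) * sin θ) - 9 / 16 * (s ^ (-(7 / 4) : ℝ) * sin (3 * θ)))) θ := by
  have h3 : HasDerivAt (fun t : ℝ => 3 * t) 3 θ := by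
    simpa using (hasDerivAt_id θ).const_mul (3 : ℝ)
  have h := (((hasDerivAt_cos θ).const_mul (s ^ (-(3 / 4) : ℝ))).add
    (h3.cos.const_mul (3 / 16 * s ^ (-(7 / 4) : ℝ)))).const_mul (exp s)
  refine h.congr_deriv ?_
  ring

theorem dyU0 (s θ : ℝ) : dy U0 (s, θ) =
    exp s * (-(s ^ (-(3 / 4) : ℝ) * sin θ) - 9 / 16 * (s ^ (-(7 / 4) : ℝ) * sin (3 * θ))) :=
  (hdy s θ).deriv

theorem dydyU0 (s θ : ℝ) : dy (dy U0) (s, θ) =
    exp s * (-(s ^ (-(3 / 4) : ℝ) * cos θ) - 27 / 16 * (s ^ (-(7 / 4) : ℝ) * cos (3 * θ))) := by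
  have h3 : HasDerivAt (fun t : ℝ => 3 * t) 3 θ := by
    simpa using (hasDerivAt_id θ).const_mul (3 : ℝ)
  have h := (((hasDerivAt_sin θ).const_mul (s ^ (-(3 / 4) : ℝ))).neg.sub
    ((h3.sin.const_mul (s ^ (-(7 / 4) : ℝ))).const_mul (9 / 16))).const_mul (exp s)
  have e : (fun x : ℝ => dy U0 (s, x)) = fun x : ℝ =>
      exp s * (-(s ^ (-(3 / 4) : ℝ) * sin x) - 9 / 16 * (s ^ (-(7 / 4) : ℝ) * sin (3 * x))) :=
    funext fun x => dyU0 s x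
  change deriv (fun x : ℝ => dy U0 (s, x)) θ = _
  rw [e]
  refine (h.congr_deriv ?_).deriv
  ring

theorem pws {s : ℝ} (hs : 0 < s) :
    s ^ (-(3 / 4) : ℝ) = s ^ 2 * s ^ (-(11 / 4) : ℝ) ∧ s ^ (-(7 / 4) : ℝ) = s * s ^ (-(11 / 4) : ℝ) ∧
    s ^ (-(3 / 4) - 1 : ℝ) = s * s ^ (-(11 / 4) : ℝ) ∧ s ^ (-(7 / 4) - 1 : ℝ) = s ^ (-(11 / 4) : ℝ) ∧
    s ^ (-(3 / 4) - 1 - 1 : ℝ) = s ^ (-(11 / 4) : ℝ) ∧
    s ^ (-(7 / 4) - 1 - 1 : ℝ) = 1 / s * s ^ (-(11 / 4) : ℝ) := by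
  refine ⟨?_, ?_, ?_, ?_, ?_, ?_⟩
  · rw [← Real.rpow_two, ← Real.rpow_add hs]
    norm_num
  · nth_rewrite 2 [← Real.rpow_one s]
    rw [← Real.rpow_add hs]
    norm_num
  · nth_rewrite 2 [← Real.rpow_one s]
    rw [← Real.rpow_add hs]
    norm_num
  · norm_num
  · norm_num
  · rw [one_div, ← Real.rpow_neg_one, ← Real.rpow_add hs]
    norm_num

theorem bxy {x y : ℝ} (hx : |x| ≤ 1) (hy : |y| ≤ 1) : |x * y| ≤ 1 := by
  rw [abs_mul]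
  exact mul_le_one₀ hx (abs_nonneg _) hy

theorem bnd : S_bnd := by
  refine ⟨10, ?_⟩
  rintro ⟨s, θ⟩ ⟨hs, -⟩
  have hs21 : (21 : ℝ) < s := hs
  have hs0 : 0 < s := by linarith
  obtain ⟨p1, p2, p3, p4, p5, p6⟩ := pws hs0
  have hX : 0 < s ^ (-(11 / 4) : ℝ) := Real.rpow_pos_of_pos hs0 _
  have hE := exp_pos s
  have key : F0 (s, θ) = exp s * s ^ (-(11 / 4) : ℝ) *
      (21 / 16 * cos θ - 21 / 32 * cos (3 * θ) + 231 / 256 * (1 / s * cos (3 * θ)) -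
        9 / 4 * (cos (2 * θ) * cos θ) + 9 / 16 * (cos (2 * θ) * cos (3 * θ)) -
        63 / 64 * (1 / s * (cos (2 * θ) * cos (3 * θ))) - 3 / 2 * (sin (2 * θ) * sin θ) -
        27 / 32 * (1 / s * (sin (2 * θ) * sin (3 * θ)))) := by
    unfold F0 lap
    simp only
    rw [dxdxU0 hs0, dydyU0, dxU0 hs0, dyU0, p1, p2, p3, p4, p5, p6]
    have e1 : cos (3 * θ) = 2 * (cos (2 * θ) * cos θ) - cos θ := by
      rw [cos_three_mul, cos_two_mul]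
      ring
    set X := s ^ (-(11 / 4) : ℝ)
    set c1 := cos θ
    set c2 := cos (2 * θ)
    set c3 := cos (3 * θ)
    set s1 := sin θ
    set s2 := sin (2 * θ)
    set s3 := sin (3 * θ)
    have e2 : 3 / s * c2 * (exp s * (s ^ 2 * X * c1 + s * X * (3 / 16 * c3) +
        (s * X * (-(3 / 4) * c1) + X * (-(7 / 4) * (3 / 16 * c3))))) =
        exp s * X * (3 * c2 * (s * c1 + 3 / 16 * c3 - 3 / 4 * c1 - 21 / 64 * (1 / s * c3))) := by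
      field_simp
      ring
    have e3 : 3 / 2 / s ^ 2 * s2 * (exp s * (-(s ^ 2 * X * s1) - 9 / 16 * (s * X * s3))) =
        exp s * X * (-(3 / 2) * s2 * (s1 + 9 / 16 * (1 / s * s3))) := by
      field_simp
      ring
    rw [e2, e3]
    linear_combination (-(3 / 2) * exp s * s * X) * e1
  rw [key, abs_mul, abs_of_pos (mul_pos hE hX)]
  have u0 : 0 < 1 / s := by positivity
  have u1 : 1 / s ≤ 1 := by
    rw [div_le_one hs0]
    linarith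
  have hu : |1 / s| ≤ 1 := by rwa [abs_of_pos u0]
  have b1 := abs_cos_le_one θ
  have b2 := abs_cos_le_one (2 * θ)
  have b3 := abs_cos_le_one (3 * θ)
  have d1 := abs_sin_le_one θ
  have d2 := abs_sin_le_one (2 * θ)
  have d3 := abs_sin_le_one (3 * θ)
  have f1 := abs_le.1 b1
  have f2 := abs_le.1 b3
  have f3 := abs_le.1 (bxy hu b3)
  have f4 := abs_le.1 (bxy b2 b1)
  have f5 := abs_le.1 (bxy b2 b3)
  have f6 := abs_le.1 (bxy hu (bxy b2 b3))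
  have f7 := abs_le.1 (bxy d2 d1)
  have f8 := abs_le.1 (bxy hu (bxy d2 d3))
  have hb : |21 / 16 * cos θ - 21 / 32 * cos (3 * θ) + 231 / 256 * (1 / s * cos (3 * θ)) -
        9 / 4 * (cos (2 * θ) * cos θ) + 9 / 16 * (cos (2 * θ) * cos (3 * θ)) -
        63 / 64 * (1 / s * (cos (2 * θ) * cos (3 * θ))) - 3 / 2 * (sin (2 * θ) * sin θ) -
        27 / 32 * (1 / s * (sin (2 * θ) * sin (3 * θ)))| ≤ 10 := by
    rw [abs_le]
    constructor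
    · linarith [f1.1, f2.2, f3.1, f4.2, f5.1, f6.2, f7.2, f8.2]
    · linarith [f1.2, f2.1, f3.2, f4.1, f5.2, f6.1, f7.1, f8.1]
  have := mul_le_mul_of_nonneg_left hb (mul_pos hE hX).le
  linarith

end Pool.Agent.Q164.ND.BND

namespace Pool.Agent.Q164.ND

open Pool.Agent.Q61.ND

/-- **BND** -/
theorem bnd : S_bnd := BND.bnd

end Pool.Agent.Q164.ND
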