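import Pool.Agent.Q61.ND.Stm

set_option autoImplicit false

/-!
# Project ND, job CIR: the inequality on the circle
-/

open MeasureTheory Set Filter Topology Real

namespace Pool.Agent.Q164.ND.CIR

open Pool.Agent.Q61.ND

theorem ia {f g : ℝ → ℝ} (hf : Continuous f) (hg : Continuous g) :
    ∫ t in (-π)..π, (f t + g t) = (∫ t in (-π)..π, f t) + ∫ t in (-π)..π, g t :=
  intervalIntegral.integral_add (hf.intervalIntegrable _ _) (hg.intervalIntegrable _ _)

theorem is {f g : ℝ → ℝ} (hf : Continuous f) (hg : Continuous g) :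
    ∫ t in (-π)..π, (f t - g t) = (∫ t in (-π)..π, f t) - ∫ t in (-π)..π, g t :=
  intervalIntegral.integral_sub (hf.intervalIntegrable _ _) (hg.intervalIntegrable _ _)

theorem ic (c : ℝ) (f : ℝ → ℝ) : ∫ t in (-π)..π, c * f t = c * ∫ t in (-π)..π, f t :=
  intervalIntegral.integral_const_mul c f

theorem im {f g : ℝ → ℝ} (hf : Continuous f) (hg : Continuous g) (h : ∀ t, f t ≤ g t) :
    ∫ t in (-π)..π, f t ≤ ∫ t in (-π)..π, g t :=
  intervalIntegral.integral_mono (by linarith [pi_pos]) (hf.intervalIntegrable _ _)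
    (hg.intervalIntegrable _ _) h

theorem icos2 : ∫ t in (-π)..π, cos t ^ 2 = π := by
  rw [integral_cos_sq, cos_neg, sin_neg, sin_pi]
  ring

theorem isin2 : ∫ t in (-π)..π, sin t ^ 2 = π := by
  rw [integral_sin_sq, cos_neg, sin_neg, sin_pi]
  ring

theorem isc : ∫ t in (-π)..π, sin t * cos t = 0 := by
  rw [integral_sin_mul_cos₁, sin_neg, sin_pi]
  ring

/-- the first harmonics -/
noncomputable def Pp (a b t : ℝ) : ℝ := a * cos t + b * sin t

theorem Pp_cont (a b : ℝ) : Continuous (Pp a b) := by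
  unfold Pp
  fun_prop

theorem Pp_deriv (a b t : ℝ) : HasDerivAt (Pp a b) (Pp b (-a) t) t := by
  have h := ((hasDerivAt_cos t).const_mul a).add ((hasDerivAt_sin t).const_mul b)
  refine h.congr_deriv ?_
  unfold Pp
  ring

theorem iP2 (a b : ℝ) : ∫ t in (-π)..π, Pp a b t ^ 2 = π * (a ^ 2 + b ^ 2) := by
  have h : ∀ t : ℝ, Pp a b t ^ 2 = a ^ 2 * cos t ^ 2 + (2 * a * b * (sin t * cos t) + b ^ 2 * sin t ^ 2) := by
    intro t
    unfold Pp
    ring
  simp only [h]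
  rw [ia (by fun_prop) (by fun_prop), ia (by fun_prop) (by fun_prop), ic, ic, ic, icos2, isin2, isc]
  ring

theorem iK (a b : ℝ) : ∫ t in (-π)..π, cos (2 * t) * Pp a b t ^ 2 = π / 2 * (a ^ 2 - b ^ 2) := by
  have hd : ∀ t : ℝ, HasDerivAt (fun t : ℝ => (a ^ 2 + b ^ 2) / 4 * sin (2 * t) +
      (a ^ 2 - b ^ 2) / 2 * (t / 2 + sin (2 * t) * cos (2 * t) / 4) + a * b / 4 * sin (2 * t) ^ 2)
      (cos (2 * t) * Pp a b t ^ 2) t := by
    intro t
    have h2 : HasDerivAt (fun t : ℝ => 2 * t) 2 t := by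
      simpa using (hasDerivAt_id t).const_mul (2 : ℝ)
    have hs : HasDerivAt (fun t : ℝ => sin (2 * t)) (cos (2 * t) * 2) t := h2.sin
    have hc : HasDerivAt (fun t : ℝ => cos (2 * t)) (-sin (2 * t) * 2) t := h2.cos
    have h := ((hs.const_mul ((a ^ 2 + b ^ 2) / 4)).add
      ((((hasDerivAt_id t).div_const 2).add ((hs.mul hc).div_const 4)).const_mul
        ((a ^ 2 - b ^ 2) / 2))).add ((hs.pow 2).const_mul (a * b / 4))
    refine h.congr_deriv ?_
    have e1 : cos t ^ 2 = 1 / 2 + cos (2 * t) / 2 := cos_sq t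
    have e2 : sin (2 * t) = 2 * sin t * cos t := sin_two_mul t
    have e3 := sin_sq_add_cos_sq (2 * t)
    have e4 := sin_sq_add_cos_sq t
    unfold Pp
    simp only [Nat.cast_ofNat, Nat.add_one_sub_one, pow_one]
    linear_combination (-cos (2 * t) * a ^ 2 + cos (2 * t) * b ^ 2) * e1 -
      (a ^ 2 - b ^ 2) / 4 * e3 + a * b * cos (2 * t) * e2 - cos (2 * t) * b ^ 2 * e4
  rw [intervalIntegral.integral_eq_sub_of_hasDerivAt (fun t _ => hd t)
    ((by
      have := Pp_cont a b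
      fun_prop : Continuous fun t : ℝ => cos (2 * t) * Pp a b t ^ 2).intervalIntegrable _ _)]
  have e1 : sin (2 * π) = 0 := sin_two_pi
  have e2 : sin (2 * -π) = 0 := by rw [mul_neg, sin_neg, e1, neg_zero]
  rw [e1, e2]
  ring

theorem main (hw : S_wir) (Ψ : ℝ → ℝ) (h1 : ContDiff ℝ 1 Ψ) (h2 : ∀ t, Ψ (t + π) = -Ψ t) (ε : ℝ)
    (hε : 0 ≤ ε) (hε1 : ε ≤ 1) :
    -(3 / 2 * ε + 9 / 4 * ε ^ 2) * ∫ t in (-π)..π, Ψ t ^ 2 ≤
      ∫ t in (-π)..π, (deriv Ψ t ^ 2 - Ψ t ^ 2 - 3 * ε * cos (2 * t) * Ψ t ^ 2) := by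
  obtain ⟨a, ha⟩ : ∃ a : ℝ, a = (∫ t in (-π)..π, Ψ t * cos t) / π := ⟨_, rfl⟩
  obtain ⟨b, hb⟩ : ∃ b : ℝ, b = (∫ t in (-π)..π, Ψ t * sin t) / π := ⟨_, rfl⟩
  have cΨ : Continuous Ψ := h1.continuous
  have cdΨ : Continuous (deriv Ψ) := h1.continuous_deriv le_rfl
  have cP := Pp_cont a b
  have cD := Pp_cont b (-a)
  obtain ⟨R, hR⟩ : ∃ R : ℝ → ℝ, R = fun t => Ψ t - Pp a b t := ⟨_, rfl⟩
  have cR : Continuous R := by
    rw [hR]
    exact cΨ.sub cP
  have dR : ∀ t, HasDerivAt R (deriv Ψ t - Pp b (-a) t) t := by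
    intro t
    rw [hR]
    exact ((h1.differentiable one_ne_zero t).hasDerivAt).sub (Pp_deriv a b t)
  have dR' : ∀ t, deriv R t = deriv Ψ t - Pp b (-a) t := fun t => (dR t).deriv
  have R1 : ContDiff ℝ 1 R := by
    rw [hR]
    refine h1.sub ?_
    unfold Pp
    fun_prop
  have cdR : Continuous (deriv R) := R1.continuous_deriv le_rfl
  have Ra : ∀ t, R (t + π) = -R t := by
    intro t
    rw [hR]
    simp only [Pp, cos_add_pi, sin_add_pi, h2]
    ring
  have Rc : ∫ t in (-π)..π, R t * cos t = 0 := by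
    have e : ∀ t : ℝ, R t * cos t = Ψ t * cos t - (a * cos t ^ 2 + b * (sin t * cos t)) := by
      intro t
      rw [hR]
      simp only [Pp]
      ring
    simp only [e]
    rw [is (by fun_prop) (by fun_prop), ia (by fun_prop) (by fun_prop), ic, ic, icos2, isc, ha]
    field_simp
    ring
  have Rs : ∫ t in (-π)..π, R t * sin t = 0 := by
    have e : ∀ t : ℝ, R t * sin t = Ψ t * sin t - (a * (sin t * cos t) + b * sin t ^ 2) := by
      intro t
      rw [hR]
      simp only [Pp]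
      ring
    simp only [e]
    rw [is (by fun_prop) (by fun_prop), ia (by fun_prop) (by fun_prop), ic, ic, isin2, isc, hb]
    field_simp
    ring
  have W := hw R R1 Ra Rc Rs
  have PR : ∫ t in (-π)..π, Pp a b t * R t = 0 := by
    have e : ∀ t : ℝ, Pp a b t * R t = a * (R t * cos t) + b * (R t * sin t) := by
      intro t
      unfold Pp
      ring
    simp only [e]
    rw [ia (by fun_prop) (by fun_prop), ic, ic, Rc, Rs]
    ring
  have DR : ∫ t in (-π)..π, Pp b (-a) t * deriv R t = 0 := by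
    have e1 : ∀ t, HasDerivAt (Pp b (-a)) (-Pp a b t) t := by
      intro t
      refine (Pp_deriv b (-a) t).congr_deriv ?_
      unfold Pp
      ring
    rw [intervalIntegral.integral_mul_deriv_eq_deriv_mul (u := Pp b (-a)) (v := R)
      (u' := fun t => -Pp a b t) (v' := deriv R) (fun t _ => e1 t)
      (fun t _ => (dR t).congr_deriv (dR' t).symm)
      ((by fun_prop : Continuous fun t => -Pp a b t).intervalIntegrable _ _)
      (cdR.intervalIntegrable _ _)]
    have e2 : ∀ t : ℝ, -Pp a b t * R t = (-1) * (Pp a b t * R t) := fun t => by ring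
    simp only [e2]
    rw [ic, PR]
    have e3 := Ra (-π)
    rw [neg_add_cancel] at e3
    have e4 := Ra 0
    rw [zero_add] at e4
    have e5 : R π = R (-π) := by linarith
    rw [e5]
    unfold Pp
    rw [cos_neg, sin_neg, sin_pi]
    ring
  have x2 := iP2 a b
  have D2 := iP2 b (-a)
  have K := iK a b
  have S1 : ∫ t in (-π)..π, Ψ t ^ 2 = (∫ t in (-π)..π, Pp a b t ^ 2) + ∫ t in (-π)..π, R t ^ 2 := by
    have e : ∀ t : ℝ, Ψ t ^ 2 = Pp a b t ^ 2 + (2 * (Pp a b t * R t) + R t ^ 2) := by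
      intro t
      rw [hR]
      ring
    simp only [e]
    rw [ia (by fun_prop) (by fun_prop), ia (by fun_prop) (by fun_prop), ic, PR]
    ring
  have S2 : ∫ t in (-π)..π, deriv Ψ t ^ 2 =
      (∫ t in (-π)..π, Pp b (-a) t ^ 2) + ∫ t in (-π)..π, deriv R t ^ 2 := by
    have e : ∀ t : ℝ, deriv Ψ t ^ 2 =
        Pp b (-a) t ^ 2 + (2 * (Pp b (-a) t * deriv R t) + deriv R t ^ 2) := by
      intro t
      rw [dR']
      ring
    simp only [e]
    rw [ia (by fun_prop) (by fun_prop), ia (by fun_prop) (by fun_prop), ic, DR]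
    ring
  have S3 : 3 * ε * ∫ t in (-π)..π, cos (2 * t) * Ψ t ^ 2 ≤
      3 * ε * (π / 2 * (a ^ 2 - b ^ 2)) + ((4 + 3 * ε) * (∫ t in (-π)..π, R t ^ 2) +
        9 / 4 * ε ^ 2 * ∫ t in (-π)..π, Pp a b t ^ 2) := by
    have e : ∀ t : ℝ, 3 * ε * (cos (2 * t) * Ψ t ^ 2) ≤ 3 * ε * (cos (2 * t) * Pp a b t ^ 2) +
        ((4 + 3 * ε) * R t ^ 2 + 9 / 4 * ε ^ 2 * Pp a b t ^ 2) := by
      intro t
      have e1 : Ψ t = Pp a b t + R t := by
        rw [hR]
        ring
      rw [e1]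
      have c1 := cos_le_one (2 * t)
      have c2 := neg_one_le_cos (2 * t)
      set c := cos (2 * t)
      set P := Pp a b t
      set r := R t
      have e2 : 3 * ε * c * r ^ 2 ≤ 3 * ε * r ^ 2 := by
        have : 0 ≤ 3 * ε * r ^ 2 := by positivity
        nlinarith
      have e3 : 6 * ε * c * (P * r) ≤ 4 * r ^ 2 + 9 / 4 * ε ^ 2 * P ^ 2 := by
        have c3 : c ^ 2 ≤ 1 := by nlinarith
        have e4 : 0 ≤ (2 * r - 3 / 2 * ε * c * P) ^ 2 := sq_nonneg _
        have e5 : ε ^ 2 * P ^ 2 * c ^ 2 ≤ ε ^ 2 * P ^ 2 * 1 :=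
          mul_le_mul_of_nonneg_left c3 (by positivity)
        nlinarith
      nlinarith
    rw [← ic, ← K, ← ic, ← ic, ← ic, ← ia (by fun_prop) (by fun_prop), ← ia (by fun_prop) (by fun_prop)]
    exact im (by fun_prop) (by fun_prop) e
  have S4 : ∫ t in (-π)..π, (deriv Ψ t ^ 2 - Ψ t ^ 2 - 3 * ε * cos (2 * t) * Ψ t ^ 2) =
      (∫ t in (-π)..π, deriv Ψ t ^ 2) - (∫ t in (-π)..π, Ψ t ^ 2) -
        3 * ε * ∫ t in (-π)..π, cos (2 * t) * Ψ t ^ 2 := by
    rw [← ic, ← is (by fun_prop) (by fun_prop), ← is (by fun_prop) (by fun_prop)]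
    congr 1
    funext t
    ring
  have y0 : 0 ≤ ∫ t in (-π)..π, R t ^ 2 :=
    intervalIntegral.integral_nonneg (by linarith [pi_pos]) fun t _ => sq_nonneg _
  rw [S4, S2, S1, x2, D2]
  rw [x2] at S3
  have hπ := pi_pos
  set y := ∫ t in (-π)..π, R t ^ 2
  set z := ∫ t in (-π)..π, deriv R t ^ 2
  have f1 : 0 ≤ ε * (π * b ^ 2) := by positivity
  have f2 : 0 ≤ (1 - ε) * y := mul_nonneg (by linarith) y0
  have f3 : 0 ≤ ε * y := mul_nonneg hε y0
  have f4 : 0 ≤ ε ^ 2 * y := mul_nonneg (sq_nonneg ε) y0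
  nlinarith

end Pool.Agent.Q164.ND.CIR

namespace Pool.Agent.Q164.ND

open Pool.Agent.Q61.ND

/-- **CIR** -/
theorem cir (h : S_wir) : S_cir := fun Ψ h1 h2 ε hε => CIR.main h Ψ h1 h2 ε hε.1 hε.2

end Pool.Agent.Q164.ND
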